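import Mathlib

set_option autoImplicit false

namespace Pool.Agent.Results.MP_dc22f7_an.IterLaguerreFails

open Polynomial Filter

/-- The iterated Laguerre expression `T_k^{(n)}(φ(x))` (only used in the range `k ≥ n + 1`). -/
noncomputable def laguerreT (φ : ℝ → ℝ) : ℕ → ℕ → ℝ → ℝ
  | 0, k, x => (iteratedDeriv k φ x) ^ 2 - iteratedDeriv (k - 1) φ x * iteratedDeriv (k + 1) φ x
  | n + 1, k, x => (laguerreT φ n k x) ^ 2 - laguerreT φ n (k - 1) x * laguerreT φ n (k + 1) x

/-- The maximum modulus `M(r)` of `F` on the circle `|z| = r`. -/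
noncomputable def maxModulus (F : ℂ → ℂ) (r : ℝ) : ℝ :=
  sSup ((fun z : ℂ => ‖F z‖) '' Metric.sphere (0 : ℂ) r)

/-- The growth order `limsup_{r → ∞} log log M(r) / log r`. -/
noncomputable def growthOrder (F : ℂ → ℂ) : EReal :=
  limsup (fun r : ℝ => ((Real.log (Real.log (maxModulus F r)) / Real.log r : ℝ) : EReal)) atTop

/-- The polynomial `(1 + x)^38 (1 + 100 x)^2`. -/
noncomputable def P : ℝ[X] := (1 + X) ^ 38 * (1 + C 100 * X) ^ 2

lemma P_ne_zero : P ≠ 0 := by
  intro h
  have := congrArg (fun p => Polynomial.eval 0 p) h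
  simp [P] at this

lemma P_coeff (k : ℕ) : P.coeff (k + 2) =
    (Nat.choose 38 (k + 2) : ℝ) + 200 * Nat.choose 38 (k + 1) + 10000 * Nat.choose 38 k := by
  have h : P = (1 + X) ^ 38 + C 200 * ((1 + X) ^ 38 * X) + C 10000 * ((1 + X) ^ 38 * X ^ 2) := by
    have h1 : (C 200 : ℝ[X]) = 2 * C 100 := by
      rw [← map_ofNat C 2, ← C_mul]; norm_num
    have h2 : (C 10000 : ℝ[X]) = C 100 * C 100 := by
      rw [← C_mul]; norm_num
    rw [P, h1, h2]; ring
  rw [h]
  simp only [coeff_add, coeff_C_mul, coeff_mul_X_pow, coeff_one_add_X_pow]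
  rw [show k + 2 = (k + 1) + 1 from rfl, coeff_mul_X, coeff_one_add_X_pow]

lemma P_coeff_zero : P.coeff 0 = 1 := by
  rw [coeff_zero_eq_eval_zero]; simp [P]

lemma P_coeff_one : P.coeff 1 = 238 := by
  have h : P = (1 + X) ^ 38 + C 200 * ((1 + X) ^ 38 * X) + C 10000 * ((1 + X) ^ 38 * X ^ 2) := by
    have h1 : (C 200 : ℝ[X]) = 2 * C 100 := by
      rw [← map_ofNat C 2, ← C_mul]; norm_num
    have h2 : (C 10000 : ℝ[X]) = C 100 * C 100 := by
      rw [← C_mul]; norm_num
    rw [P, h1, h2]; ring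
  rw [h]
  simp only [coeff_add, coeff_C_mul, coeff_one_add_X_pow]
  rw [show (1 : ℕ) = 0 + 1 from rfl, coeff_mul_X, coeff_one_add_X_pow,
    show (1 + X : ℝ[X]) ^ 38 * X ^ 2 = ((1 + X) ^ 38 * X) * X by ring, coeff_mul_X]
  simp
  norm_num

lemma iteratedDeriv_P (k : ℕ) : iteratedDeriv k (fun t : ℝ => P.eval t) 0 = (k.factorial : ℝ) * P.coeff k := by
  have h : ∀ (k : ℕ) (Q : ℝ[X]), iteratedDeriv k (fun t : ℝ => Q.eval t) = fun t => (derivative^[k] Q).eval t := by
    intro k
    induction k with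
    | zero => intro Q; simp
    | succ k ih =>
      intro Q
      rw [iteratedDeriv_succ', show deriv (fun t : ℝ => Q.eval t) = fun t => (derivative Q).eval t from by
        funext t; exact Polynomial.deriv Q, ih]
      rfl
  rw [h]
  simp only []
  rw [← coeff_zero_eq_eval_zero, coeff_iterate_derivative]
  simp [Nat.descFactorial_self]

lemma g0 : iteratedDeriv 0 (fun t : ℝ => P.eval t) 0 = 1 := by
  rw [iteratedDeriv_P, P_coeff_zero]; norm_num

lemma g1 : iteratedDeriv 1 (fun t : ℝ => P.eval t) 0 = 238 := by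
  rw [iteratedDeriv_P, P_coeff_one]; norm_num

lemma g2 : iteratedDeriv 2 (fun t : ℝ => P.eval t) 0 = 36606 := by
  rw [iteratedDeriv_P, P_coeff 0]
  norm_num [Nat.factorial, Nat.choose_eq_descFactorial_div_factorial, Nat.descFactorial]

lemma g3 : iteratedDeriv 3 (fun t : ℝ => P.eval t) 0 = 3174216 := by
  rw [iteratedDeriv_P, P_coeff 1]
  norm_num [Nat.factorial, Nat.choose_eq_descFactorial_div_factorial, Nat.descFactorial]

lemma g4 : iteratedDeriv 4 (fun t : ℝ => P.eval t) 0 = 210984360 := by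
  rw [iteratedDeriv_P, P_coeff 2]
  norm_num [Nat.factorial, Nat.choose_eq_descFactorial_div_factorial, Nat.descFactorial]

lemma g5 : iteratedDeriv 5 (fun t : ℝ => P.eval t) 0 = 11954993040 := by
  rw [iteratedDeriv_P, P_coeff 3]
  norm_num [Nat.factorial, Nat.choose_eq_descFactorial_div_factorial, Nat.descFactorial]

lemma g6 : iteratedDeriv 6 (fun t : ℝ => P.eval t) 0 = 605735338320 := by
  rw [iteratedDeriv_P, P_coeff 4]
  norm_num [Nat.factorial, Nat.choose_eq_descFactorial_div_factorial, Nat.descFactorial]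

lemma g7 : iteratedDeriv 7 (fun t : ℝ => P.eval t) 0 = 28144249338240 := by
  rw [iteratedDeriv_P, P_coeff 5]
  norm_num [Nat.factorial, Nat.choose_eq_descFactorial_div_factorial, Nat.descFactorial]

lemma g8 : iteratedDeriv 8 (fun t : ℝ => P.eval t) 0 = 1216848112381440 := by
  rw [iteratedDeriv_P, P_coeff 6]
  norm_num [Nat.factorial, Nat.choose_eq_descFactorial_div_factorial, Nat.descFactorial]

lemma g9 : iteratedDeriv 9 (fun t : ℝ => P.eval t) 0 = 49404758472115200 := by
  rw [iteratedDeriv_P, P_coeff 7]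
  norm_num [Nat.factorial, Nat.choose_eq_descFactorial_div_factorial, Nat.descFactorial]

lemma g10 : iteratedDeriv 10 (fun t : ℝ => P.eval t) 0 = 1894632701796172800 := by
  rw [iteratedDeriv_P, P_coeff 8]
  norm_num [Nat.factorial, Nat.choose_eq_descFactorial_div_factorial, Nat.descFactorial]

lemma t0_1 : laguerreT (fun t : ℝ => P.eval t) 0 1 0 = 20038 := by
  rw [laguerreT, show 1 - 1 = 0 from rfl, show 1 + 1 = 2 from rfl, g1, g0, g2]; norm_num

lemma t0_2 : laguerreT (fun t : ℝ => P.eval t) 0 2 0 = 584535828 := by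
  rw [laguerreT, show 2 - 1 = 1 from rfl, show 2 + 1 = 3 from rfl, g2, g1, g3]; norm_num

lemma t0_3 : laguerreT (fun t : ℝ => P.eval t) 0 3 0 = 2352353732496 := by
  rw [laguerreT, show 3 - 1 = 2 from rfl, show 3 + 1 = 4 from rfl, g3, g2, g4]; norm_num

lemma t0_4 : laguerreT (fun t : ℝ => P.eval t) 0 4 0 = 6566669977152960 := by
  rw [laguerreT, show 4 - 1 = 3 from rfl, show 4 + 1 = 5 from rfl, g4, g3, g5]; norm_num

lemma t0_5 : laguerreT (fun t : ℝ => P.eval t) 0 5 0 = 15121175901619766400 := by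
  rw [laguerreT, show 5 - 1 = 4 from rfl, show 5 + 1 = 6 from rfl, g5, g4, g6]; norm_num

lemma t0_6 : laguerreT (fun t : ℝ => P.eval t) 0 6 0 = 30450995134961054572800 := by
  rw [laguerreT, show 6 - 1 = 5 from rfl, show 6 + 1 = 7 from rfl, g6, g5, g7]; norm_num

lemma t0_7 : laguerreT (fun t : ℝ => P.eval t) 0 7 0 = 55010867775597738637516800 := by
  rw [laguerreT, show 7 - 1 = 6 from rfl, show 7 + 1 = 8 from rfl, g7, g6, g8]; norm_num

lemma t0_8 : laguerreT (fun t : ℝ => P.eval t) 0 8 0 = 90259487671538380735011225600 := by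
  rw [laguerreT, show 8 - 1 = 7 from rfl, show 8 + 1 = 9 from rfl, g8, g7, g9]; norm_num

lemma t0_9 : laguerreT (fun t : ℝ => P.eval t) 0 9 0 = 135349932851218052857076318208000 := by
  rw [laguerreT, show 9 - 1 = 8 from rfl, show 9 + 1 = 10 from rfl, g9, g8, g10]; norm_num

lemma t1_2 : laguerreT (fun t : ℝ => P.eval t) 1 2 0 = 294545670123890736 := by
  rw [laguerreT, show 2 - 1 = 1 from rfl, show 2 + 1 = 3 from rfl, t0_2, t0_1, t0_3]; norm_num

lemma t1_3 : laguerreT (fun t : ℝ => P.eval t) 1 3 0 = 1695114210490016170139136 := by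
  rw [laguerreT, show 3 - 1 = 2 from rfl, show 3 + 1 = 4 from rfl, t0_3, t0_2, t0_4]; norm_num

lemma t1_4 : laguerreT (fun t : ℝ => P.eval t) 1 4 0 = 7550800016938230625175627827200 := by
  rw [laguerreT, show 4 - 1 = 3 from rfl, show 4 + 1 = 5 from rfl, t0_4, t0_3, t0_5]; norm_num

lemma t1_5 : laguerreT (fun t : ℝ => P.eval t) 1 5 0 = 28688325120546750961935199457513472000 := by
  rw [laguerreT, show 5 - 1 = 4 from rfl, show 5 + 1 = 6 from rfl, t0_5, t0_4, t0_6]; norm_num

lemma t1_6 : laguerreT (fun t : ℝ => P.eval t) 1 6 0 = 95434096573861925358732294436148298424320000 := by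
  rw [laguerreT, show 6 - 1 = 5 from rfl, show 6 + 1 = 7 from rfl, t0_6, t0_5, t0_7]; norm_num

lemma t1_7 : laguerreT (fun t : ℝ => P.eval t) 1 7 0 = 277704353454205177508864610363954246602257858560000 := by
  rw [laguerreT, show 7 - 1 = 6 from rfl, show 7 + 1 = 8 from rfl, t0_7, t0_6, t0_8]; norm_num

lemma t1_8 : laguerreT (fun t : ℝ => P.eval t) 1 8 0 = 701057855214200005005325361969225191551392514268200960000 := by
  rw [laguerreT, show 8 - 1 = 7 from rfl, show 8 + 1 = 9 from rfl, t0_8, t0_7, t0_9]; norm_num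

lemma t2_3 : laguerreT (fun t : ℝ => P.eval t) 2 3 0 = 649356735644634186911206043718929794903710007296 := by
  rw [laguerreT, show 3 - 1 = 2 from rfl, show 3 + 1 = 4 from rfl, t1_3, t1_2, t1_4]; norm_num

lemma t2_4 : laguerreT (fun t : ℝ => P.eval t) 2 4 0 = 8384593308797880167871706190981987285759575949124158619648000 := by
  rw [laguerreT, show 4 - 1 = 3 from rfl, show 4 + 1 = 5 from rfl, t1_4, t1_3, t1_5]; norm_num

lemma t2_5 : laguerreT (fun t : ℝ => P.eval t) 2 5 0 = 102416220195792389839566098949490922157349812167479032731192556257280000000 := by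
  rw [laguerreT, show 5 - 1 = 4 from rfl, show 5 + 1 = 6 from rfl, t1_5, t1_4, t1_6]; norm_num

lemma t2_6 : laguerreT (fun t : ℝ => P.eval t) 2 6 0 = 1140794009583736194231394892293629949189642785634090648985578163219046445696942080000000 := by
  rw [laguerreT, show 6 - 1 = 5 from rfl, show 6 + 1 = 7 from rfl, t1_6, t1_5, t1_7]; norm_num

lemma t2_7 : laguerreT (fun t : ℝ => P.eval t) 2 7 0 = 10214884869041644683038243801050773980136054200477254613174226496003329641367743837027853926400000000 := by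
  rw [laguerreT, show 7 - 1 = 6 from rfl, show 7 + 1 = 8 from rfl, t1_7, t1_6, t1_8]; norm_num

lemma t3_4 : laguerreT (fun t : ℝ => P.eval t) 3 4 0 = 3796742530536380460381178928176004252537782445954787158997652781408349771413338819379613924213965432369497478529024000000 := by
  rw [laguerreT, show 4 - 1 = 3 from rfl, show 4 + 1 = 5 from rfl, t2_4, t2_3, t2_5]; norm_num

lemma t3_5 : laguerreT (fun t : ℝ => P.eval t) 3 5 0 = 923988339720533706940542454837140908443183032779218021605070793573170701392313359120578212498744159923877591500876434201010843565592412160000000000 := by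
  rw [laguerreT, show 5 - 1 = 4 from rfl, show 5 + 1 = 6 from rfl, t2_5, t2_4, t2_6]; norm_num

lemma t3_6 : laguerreT (fun t : ℝ => P.eval t) 3 6 0 = 255241074279700596306457410896566501957191019981943152628677164224142120024757874400759539476100176971501566845045337266568719816786713508453140645961326290534400000000000000 := by
  rw [laguerreT, show 6 - 1 = 5 from rfl, show 6 + 1 = 7 from rfl, t2_6, t2_5, t2_7]; norm_num

lemma t4_5 : laguerreT (fun t : ℝ => P.eval t) 4 5 0 = -115330190318026286935242247168855350782259072052331662889875277354976697306418006854270602355547011857622198315032430895755848562433740700554614881717803157807015435005853954408105494701427240528645751212307417748025193267575629284360198118626001721526308572522298799554560000000000000000000000 := by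
  rw [laguerreT, show 5 - 1 = 4 from rfl, show 5 + 1 = 6 from rfl, t3_5, t3_4, t3_6]; norm_num

lemma aeval_P (z : ℂ) : aeval z P = (1 + z) ^ 38 * (1 + 100 * z) ^ 2 := by
  simp [P]

/-- Every complex zero of `P` is real and negative. -/
lemma P_zeros (z : ℂ) (hz : aeval z P = 0) : z.im = 0 ∧ z.re < 0 := by
  rw [aeval_P] at hz
  rcases mul_eq_zero.mp hz with h | h
  · have h1 : 1 + z = 0 := by simpa using h
    have h2 : z = ((-1 : ℝ) : ℂ) := by
      push_cast; linear_combination h1
    rw [h2]; exact ⟨Complex.ofReal_im _, by rw [Complex.ofReal_re]; norm_num⟩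
  · have h1 : 1 + 100 * z = 0 := by simpa using h
    have h2 : z = ((-1 / 100 : ℝ) : ℂ) := by
      push_cast; linear_combination (1 / 100) * h1
    rw [h2]; exact ⟨Complex.ofReal_im _, by rw [Complex.ofReal_re]; norm_num⟩

lemma P_coeff_nonneg (j : ℕ) : 0 ≤ P.coeff j := by
  match j with
  | 0 => rw [P_coeff_zero]; norm_num
  | 1 => rw [P_coeff_one]; norm_num
  | k + 2 => rw [P_coeff]; positivity

lemma norm_le_of_sphere {r : ℝ} (hr : 10 ^ 4 ≤ r) {z : ℂ} (hz : ‖z‖ = r) : ‖aeval z P‖ ≤ r ^ 80 := by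
  rw [aeval_P, norm_mul, norm_pow, norm_pow]
  have h1 : ‖1 + z‖ ≤ r ^ 2 := by
    calc ‖1 + z‖ ≤ ‖(1 : ℂ)‖ + ‖z‖ := norm_add_le _ _
      _ = 1 + r := by rw [hz]; simp
      _ ≤ r ^ 2 := by nlinarith
  have h2 : ‖1 + 100 * z‖ ≤ r ^ 2 := by
    calc ‖1 + 100 * z‖ ≤ ‖(1 : ℂ)‖ + ‖100 * z‖ := norm_add_le _ _
      _ = 1 + 100 * r := by rw [norm_mul, hz]; simp
      _ ≤ r ^ 2 := by nlinarith
  calc ‖1 + z‖ ^ 38 * ‖1 + 100 * z‖ ^ 2 ≤ (r ^ 2) ^ 38 * (r ^ 2) ^ 2 := by gcongr
    _ = r ^ 80 := by ring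

lemma maxModulus_le {r : ℝ} (hr : 10 ^ 4 ≤ r) :
    maxModulus (fun z : ℂ => aeval z P) r ≤ r ^ 80 := by
  refine csSup_le ?_ ?_
  · exact ⟨_, ⟨(r : ℂ), by simp [abs_of_nonneg (by linarith : (0:ℝ) ≤ r)], rfl⟩⟩
  · rintro _ ⟨z, hz, rfl⟩
    exact norm_le_of_sphere hr (by simpa using hz)

lemma le_maxModulus {r : ℝ} (hr : 10 ^ 4 ≤ r) :
    r ≤ maxModulus (fun z : ℂ => aeval z P) r := by
  have hr0 : (0 : ℝ) ≤ r := by linarith
  have hb : BddAbove ((fun z : ℂ => ‖aeval z P‖) '' Metric.sphere (0 : ℂ) r) := by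
    refine ⟨r ^ 80, ?_⟩
    rintro _ ⟨z, hz, rfl⟩
    exact norm_le_of_sphere hr (by simpa using hz)
  have h1 : ‖aeval (r : ℂ) P‖ ≤ maxModulus (fun z : ℂ => aeval z P) r :=
    le_csSup hb ⟨(r : ℂ), by simp [abs_of_nonneg hr0], rfl⟩
  refine le_trans ?_ h1
  have h2 : aeval (r : ℂ) P = (((1 + r) ^ 38 * (1 + 100 * r) ^ 2 : ℝ) : ℂ) := by
    rw [aeval_P]; push_cast; ring
  rw [h2, Complex.norm_real, Real.norm_of_nonneg (by positivity)]
  have h3 : r ≤ 1 + r := by linarith
  have h4 : (1 : ℝ) + r ≤ (1 + r) ^ 38 := by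
    have : (1 : ℝ) ≤ 1 + r := by linarith
    calc (1 : ℝ) + r = (1 + r) ^ 1 := by ring
      _ ≤ (1 + r) ^ 38 := pow_le_pow_right₀ this (by norm_num)
  have h5 : (1 : ℝ) ≤ (1 + 100 * r) ^ 2 := by
    have : (1 : ℝ) ≤ 1 + 100 * r := by linarith
    nlinarith
  calc r ≤ (1 + r) ^ 38 := h3.trans h4
    _ = (1 + r) ^ 38 * 1 := by ring
    _ ≤ (1 + r) ^ 38 * (1 + 100 * r) ^ 2 := by gcongr

/-- The growth order of `P`, as an entire function, is at most one. -/
lemma growthOrder_P : growthOrder (fun z : ℂ => aeval z P) ≤ 1 := by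
  refine limsup_le_of_le (h := ?_)
  have e1 : ∀ᶠ r : ℝ in atTop, (10 : ℝ) ^ 4 ≤ r := eventually_ge_atTop _
  have e2 : ∀ᶠ r : ℝ in atTop, 80 * Real.log r ≤ r := by
    have := Real.isLittleO_log_id_atTop.bound (show (0 : ℝ) < 1 / 80 by norm_num)
    filter_upwards [this, eventually_ge_atTop (1 : ℝ)] with r hr h1
    rw [Real.norm_of_nonneg (Real.log_nonneg h1), id, Real.norm_of_nonneg (by linarith)] at hr
    linarith
  filter_upwards [e1, e2] with r h1 h2
  set M := maxModulus (fun z : ℂ => aeval z P) r with hM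
  have hr0 : (0 : ℝ) < r := by linarith
  have hr1 : (1 : ℝ) < r := by linarith
  have hM1 : r ≤ M := le_maxModulus h1
  have hM2 : M ≤ r ^ 80 := maxModulus_le h1
  have hlr : 0 < Real.log r := Real.log_pos hr1
  have hM3 : Real.log M ≤ 80 * Real.log r := by
    have : Real.log M ≤ Real.log (r ^ 80) := Real.log_le_log (by linarith) hM2
    rwa [Real.log_pow] at this
  have hM4 : 0 < Real.log M := Real.log_pos (by linarith)
  have hM5 : Real.log (Real.log M) ≤ Real.log r :=
    Real.log_le_log hM4 (hM3.trans h2)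
  have : Real.log (Real.log M) / Real.log r ≤ 1 := by
    rw [div_le_one hlr]; exact hM5
  exact_mod_cast this

lemma taylor_real (n : ℕ) : (iteratedDeriv n (fun z : ℂ => aeval z P) 0).im = 0 := by
  have h : ∀ (k : ℕ) (Q : ℂ[X]), iteratedDeriv k (fun t : ℂ => Q.eval t) = fun t => (derivative^[k] Q).eval t := by
    intro k
    induction k with
    | zero => intro Q; simp
    | succ k ih =>
      intro Q
      rw [iteratedDeriv_succ', show deriv (fun t : ℂ => Q.eval t) = fun t => (derivative Q).eval t from by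
        funext t; exact Polynomial.deriv Q, ih]
      rfl
  have h1 : (fun z : ℂ => aeval z P) = fun z : ℂ => (P.map (algebraMap ℝ ℂ)).eval z := by
    funext z; rw [eval_map_algebraMap]
  rw [h1, h]
  simp only []
  rw [iterate_derivative_map, ← coeff_zero_eq_eval_zero, coeff_map]
  simp

/-- There is a real polynomial `P` with nonnegative coefficients, all of whose complex zeros are
real and negative (hence a real entire function of order at most one, in fact of order zero, in the
Laguerre-Polya class with nonnegative Taylor coefficients), which violates an iterated Laguerre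
inequality at some `x ≥ 0` (here `n = 4`, `k = 5`, `x = 0`). -/
theorem result :
    ∃ P : ℝ[X],
      (∀ j, 0 ≤ P.coeff j) ∧
      Differentiable ℂ (fun z : ℂ => aeval z P) ∧
      (∀ n, (iteratedDeriv n (fun z : ℂ => aeval z P) 0).im = 0) ∧
      growthOrder (fun z : ℂ => aeval z P) ≤ 1 ∧
      (∀ z : ℂ, aeval z P = 0 → z.im = 0 ∧ z.re < 0) ∧
      ∃ n k : ℕ, n + 1 ≤ k ∧ ∃ x : ℝ, 0 ≤ x ∧ laguerreT (fun t : ℝ => P.eval t) n k x < 0 := by
  refine ⟨P, P_coeff_nonneg, Polynomial.differentiable_aeval P, taylor_real, growthOrder_P,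
    P_zeros, 4, 5, le_refl _, 0, le_refl _, ?_⟩
  rw [t4_5]; norm_num

end Pool.Agent.Results.MP_dc22f7_an.IterLaguerreFails
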